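import Mathlib

/-!
# Relations with Schütte's property on `2 ^ (3 k + 5)` points

There is an antisymmetric relation on `2 ^ (3 k + 5)` points such that any `k` points are dominated by
a common point (Erdős 1963).  Counting proof.
-/

set_option autoImplicit false
set_option linter.unusedSectionVars false

namespace Pool.Agent.H85.PC.Tour

open Finset

variable {V : Type} [Fintype V] [DecidableEq V]

/-- `c` dominates all points of `T` -/
def Dom (f : V × V → Bool) (T : Finset V) (c : V) : Prop :=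
  ∀ t ∈ T, f (c, t) = true ∧ f (t, c) = false

instance (f : V × V → Bool) (T : Finset V) (c : V) : Decidable (Dom f T c) := by
  unfold Dom; infer_instance

/-- make `c` dominate `T` -/
def ow (T : Finset V) (c : V) (f : V × V → Bool) : V × V → Bool := fun p =>
  if p.1 = c ∧ p.2 ∈ T then true else if p.2 = c ∧ p.1 ∈ T then false else f p

theorem dom_ow (T : Finset V) (c : V) (hc : c ∉ T) (f : V × V → Bool) : Dom (ow T c f) T c := by
  intro t ht
  have htc : t ≠ c := fun h => hc (h ▸ ht)
  refine ⟨by simp [ow, ht], by simp [ow, ht, htc]⟩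

theorem dom_ow_iff (T : Finset V) (c c' : V) (hc : c ∉ T) (hcc : c' ≠ c) (f : V × V → Bool) :
    Dom (ow T c f) T c' ↔ Dom f T c' := by
  unfold Dom
  refine forall₂_congr fun t ht => ?_
  have htc : t ≠ c := fun h => hc (h ▸ ht)
  have e1 : ow T c f (c', t) = f (c', t) := by simp [ow, hcc, htc]
  have e2 : ow T c f (t, c') = f (t, c') := by simp [ow, hcc, htc]
  rw [e1, e2]

/-- no point of `U` dominates `T` -/
def Bad (T U : Finset V) : Finset (V × V → Bool) :=
  Finset.univ.filter fun f => ∀ c ∈ U, ¬ Dom f T c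

theorem mem_bad {T U : Finset V} {f : V × V → Bool} : f ∈ Bad T U ↔ ∀ c ∈ U, ¬ Dom f T c := by
  simp [Bad]

theorem card_fibre (T : Finset V) (c : V) (s : Finset (V × V → Bool)) (g : V × V → Bool) :
    (s.filter fun f => ow T c f = g).card ≤ 4 ^ T.card := by
  have h1 : (4 : ℕ) ^ T.card = (Finset.univ : Finset (T → Bool × Bool)).card := by
    rw [Finset.card_univ, Fintype.card_fun, Fintype.card_prod, Fintype.card_bool, Fintype.card_coe]
  rw [h1]
  refine Finset.card_le_card_of_injOn (fun f t => (f (c, t.1), f (t.1, c))) (fun _ _ => by simp) ?_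
  intro f hf f' hf' hff
  have hf1 := (Finset.mem_filter.1 hf).2
  have hf1' := (Finset.mem_filter.1 hf').2
  funext p
  have h2 : ow T c f p = ow T c f' p := by rw [hf1, hf1']
  by_cases h3 : p.1 = c ∧ p.2 ∈ T
  · have h4 := congrArg Prod.fst (congrFun hff ⟨p.2, h3.2⟩)
    simp only at h4
    have : p = (c, p.2) := Prod.ext h3.1 rfl
    rw [this]
    exact h4
  · by_cases h5 : p.2 = c ∧ p.1 ∈ T
    · have h4 := congrArg Prod.snd (congrFun hff ⟨p.1, h5.2⟩)
      simp only at h4
      have : p = (p.1, c) := Prod.ext rfl h5.1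
      rw [this]
      exact h4
    · unfold ow at h2
      rwa [if_neg h3, if_neg h5, if_neg h3, if_neg h5] at h2

theorem bad_insert (T U : Finset V) (c : V) (hc : c ∉ T) (hcU : c ∉ U) (x : ℝ)
    (hx : x * 4 ^ T.card ≤ 1) (hx0 : 0 ≤ x) :
    ((Bad T (insert c U)).card : ℝ) ≤ (1 - x) * (Bad T U).card := by
  have h1 : (Bad T U).card ≤ 4 ^ T.card * ((Bad T U).filter fun f => Dom f T c).card := by
    refine Finset.card_le_mul_card_image_of_maps_to (f := ow T c) ?_ _ ?_
    · intro f hf
      rw [Finset.mem_filter]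
      refine ⟨?_, dom_ow T c hc f⟩
      rw [mem_bad] at hf ⊢
      intro c' hc' h
      have hne : c' ≠ c := fun e => hcU (e ▸ hc')
      exact hf c' hc' ((dom_ow_iff T c c' hc hne f).1 h)
    · intro g _
      exact card_fibre T c _ g
  have h2 : Bad T (insert c U) = (Bad T U).filter fun f => ¬ Dom f T c := by
    ext f
    rw [mem_bad, Finset.mem_filter, mem_bad]
    simp only [Finset.mem_insert, forall_eq_or_imp]
    tauto
  have h3 := Finset.card_filter_add_card_filter_not (s := Bad T U) (fun f => Dom f T c)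
  have h4 : (((Bad T U).filter fun f => Dom f T c).card : ℝ) + (Bad T (insert c U)).card =
      (Bad T U).card := by
    rw [h2]
    exact_mod_cast h3
  have h5 : ((Bad T U).card : ℝ) ≤ 4 ^ T.card * ((Bad T U).filter fun f => Dom f T c).card := by
    exact_mod_cast h1
  have h6 : x * (Bad T U).card ≤ ((Bad T U).filter fun f => Dom f T c).card := by
    calc x * ((Bad T U).card : ℝ) ≤
          x * (4 ^ T.card * ((Bad T U).filter fun f => Dom f T c).card) :=
          mul_le_mul_of_nonneg_left h5 hx0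
      _ = (x * 4 ^ T.card) * ((Bad T U).filter fun f => Dom f T c).card := by ring
      _ ≤ 1 * ((Bad T U).filter fun f => Dom f T c).card :=
          mul_le_mul_of_nonneg_right hx (by positivity)
      _ = _ := one_mul _
  linarith

theorem bad_card (T U : Finset V) (hTU : Disjoint U T) (x : ℝ)
    (hx : x * 4 ^ T.card ≤ 1) (hx0 : 0 ≤ x) (hx1 : x ≤ 1) :
    ((Bad T U).card : ℝ) ≤ (1 - x) ^ U.card * Fintype.card (V × V → Bool) := by
  induction U using Finset.induction_on with
  | empty =>
    rw [Finset.card_empty, pow_zero, one_mul]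
    exact_mod_cast Finset.card_le_univ _
  | insert c U hc ih =>
    rw [Finset.disjoint_insert_left] at hTU
    have h1 := bad_insert T U c hTU.1 hc x hx hx0
    have h2 := ih hTU.2
    rw [Finset.card_insert_of_notMem hc, pow_succ]
    calc ((Bad T (insert c U)).card : ℝ) ≤ (1 - x) * (Bad T U).card := h1
      _ ≤ (1 - x) * ((1 - x) ^ U.card * Fintype.card (V × V → Bool)) :=
          mul_le_mul_of_nonneg_left h2 (by linarith)
      _ = _ := by ring

theorem num (k : ℕ) : k * (3 * k + 5) < 31 * 2 ^ k := by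
  induction k with
  | zero => norm_num
  | succ k ih =>
    rcases Nat.lt_or_ge k 2 with h | h
    · interval_cases k <;> norm_num
    · rw [pow_succ]
      nlinarith

/-- Schütte's property with `2 ^ (3 k + 5)` points -/
theorem exists_schutte (k : ℕ) : ∃ R : Fin (2 ^ (3 * k + 5)) → Fin (2 ^ (3 * k + 5)) → Prop,
    (∀ a b, R a b → R b a → False) ∧
    ∀ T : Finset (Fin (2 ^ (3 * k + 5))), T.card ≤ k → ∃ c, ∀ z ∈ T, R c z := by
  classical
  set N := 2 ^ (3 * k + 5) with hN
  by_contra hcon
  push Not at hcon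
  -- every `f` is bad for some `t : Fin k → Fin N`
  have hbad : ∀ f : Fin N × Fin N → Bool, ∃ t : Fin k → Fin N,
      f ∈ Bad (Finset.univ.image t) (Finset.univ.image t)ᶜ := by
    intro f
    obtain ⟨T, hT, hT2⟩ := hcon (fun a b => f (a, b) = true ∧ f (b, a) = false)
      (fun a b h h' => by rw [h.1] at h'; exact absurd h'.2 (by simp))
    have hN0 : 0 < N := by rw [hN]; positivity
    obtain ⟨t, ht⟩ : ∃ t : Fin k → Fin N, T ⊆ Finset.univ.image t := by
      obtain ⟨z, hz, -⟩ := hT2 ⟨0, hN0⟩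
      have hTne : T.Nonempty := ⟨z, hz⟩
      let e := T.equivFin
      refine ⟨fun i => if h : i.val < T.card then (e.symm ⟨i.val, h⟩).1 else z, ?_⟩
      intro a ha
      rw [Finset.mem_image]
      refine ⟨⟨(e ⟨a, ha⟩).val, lt_of_lt_of_le (e ⟨a, ha⟩).2 hT⟩, Finset.mem_univ _, ?_⟩
      simp
    refine ⟨t, mem_bad.2 ?_⟩
    intro c _ hd
    obtain ⟨z, hz, hz2⟩ := hT2 c
    have h1 := hd z (ht hz)
    exact hz2 h1
  have hsub : (Finset.univ : Finset (Fin N × Fin N → Bool)) ⊆
      (Finset.univ : Finset (Fin k → Fin N)).biUnion fun t =>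
        Bad (Finset.univ.image t) (Finset.univ.image t)ᶜ := by
    intro f _
    obtain ⟨t, ht⟩ := hbad f
    exact Finset.mem_biUnion.2 ⟨t, Finset.mem_univ _, ht⟩
  set x : ℝ := (1 / 4) ^ k with hx
  have hx0 : 0 < x := by positivity
  have hx1 : x ≤ 1 := pow_le_one₀ (by norm_num) (by norm_num)
  set Ω : ℝ := (Fintype.card (Fin N × Fin N → Bool) : ℝ) with hΩ
  have hΩ0 : 0 < Ω := by
    rw [hΩ]
    exact_mod_cast Fintype.card_pos
  have hone : ∀ t : Fin k → Fin N,
      ((Bad (Finset.univ.image t) (Finset.univ.image t)ᶜ).card : ℝ) ≤ (1 - x) ^ (N - k) * Ω := by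
    intro t
    have hc : (Finset.univ.image t).card ≤ k := by
      refine Finset.card_image_le.trans ?_
      simp
    have h1 := bad_card (Finset.univ.image t) (Finset.univ.image t)ᶜ disjoint_compl_left x (by
      have : (4 : ℝ) ^ (Finset.univ.image t).card ≤ 4 ^ k := pow_le_pow_right₀ (by norm_num) hc
      calc x * 4 ^ (Finset.univ.image t).card ≤ x * 4 ^ k := mul_le_mul_of_nonneg_left this hx0.le
        _ = 1 := by rw [hx, ← mul_pow]; norm_num) hx0.le hx1
    refine h1.trans (mul_le_mul_of_nonneg_right ?_ hΩ0.le)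
    refine pow_le_pow_of_le_one (by linarith) (by linarith) ?_
    rw [Finset.card_compl, Fintype.card_fin]
    omega
  have htot : Ω ≤ (N : ℝ) ^ k * ((1 - x) ^ (N - k) * Ω) := by
    have h1 : Fintype.card (Fin N × Fin N → Bool) ≤ ∑ t : Fin k → Fin N,
        (Bad (Finset.univ.image t) (Finset.univ.image t)ᶜ).card := by
      rw [← Finset.card_univ]
      exact (Finset.card_le_card hsub).trans Finset.card_biUnion_le
    calc Ω ≤ ((∑ t : Fin k → Fin N,
          (Bad (Finset.univ.image t) (Finset.univ.image t)ᶜ).card : ℕ) : ℝ) := by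
            rw [hΩ]; exact_mod_cast h1
      _ = ∑ t : Fin k → Fin N,
          ((Bad (Finset.univ.image t) (Finset.univ.image t)ᶜ).card : ℝ) := by push_cast; rfl
      _ ≤ ∑ t : Fin k → Fin N, (1 - x) ^ (N - k) * Ω := Finset.sum_le_sum fun t _ => hone t
      _ = _ := by
          rw [Finset.sum_const, Finset.card_univ, Fintype.card_fun, Fintype.card_fin,
            Fintype.card_fin, nsmul_eq_mul]
          push_cast
          rfl
  have h1 : 1 ≤ (N : ℝ) ^ k * (1 - x) ^ (N - k) := by
    have : 1 * Ω ≤ ((N : ℝ) ^ k * (1 - x) ^ (N - k)) * Ω := by linarith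
    exact le_of_mul_le_mul_right this hΩ0
  -- numerical contradiction
  have hk8 : k ≤ 8 ^ k := (Nat.lt_pow_self (by norm_num)).le
  have hN8 : N = 32 * 8 ^ k := by
    rw [hN, pow_add, pow_mul]
    norm_num
    ring
  have h2 : (31 : ℝ) * 8 ^ k ≤ ((N - k : ℕ) : ℝ) := by
    have : 31 * 8 ^ k ≤ N - k := by omega
    exact_mod_cast this
  have h3 : (1 - x) ^ (N - k) ≤ Real.exp (-(31 * 2 ^ k)) := by
    have h4 : 1 - x ≤ Real.exp (-x) := by
      have := Real.add_one_le_exp (-x)
      linarith
    calc (1 - x) ^ (N - k) ≤ Real.exp (-x) ^ (N - k) := pow_le_pow_left₀ (by linarith) h4 _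
      _ = Real.exp (((N - k : ℕ) : ℝ) * (-x)) := by rw [← Real.exp_nat_mul]
      _ ≤ Real.exp (-(31 * 2 ^ k)) := by
          apply Real.exp_le_exp.2
          have h5 : (31 : ℝ) * 8 ^ k * x = 31 * 2 ^ k := by
            rw [hx, mul_assoc, ← mul_pow]
            norm_num
          have h6 : (31 : ℝ) * 8 ^ k * x ≤ ((N - k : ℕ) : ℝ) * x :=
            mul_le_mul_of_nonneg_right h2 hx0.le
          linarith
  have h4 : (N : ℝ) ^ k ≤ Real.exp (k * (3 * k + 5)) := by
    have h5 : (N : ℝ) = 2 ^ (3 * k + 5) := by rw [hN]; push_cast; rfl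
    rw [h5, ← pow_mul]
    have h6 : (2 : ℝ) ≤ Real.exp 1 := by
      have := Real.add_one_le_exp (1 : ℝ)
      linarith
    calc (2 : ℝ) ^ ((3 * k + 5) * k) ≤ Real.exp 1 ^ ((3 * k + 5) * k) :=
          pow_le_pow_left₀ (by norm_num) h6 _
      _ = Real.exp (((3 * k + 5) * k : ℕ) : ℝ) := by
          rw [← Real.exp_nat_mul, mul_one]
      _ = _ := by
          congr 1
          push_cast
          ring
  have h7 : (N : ℝ) ^ k * (1 - x) ^ (N - k) ≤ Real.exp (k * (3 * k + 5) - 31 * 2 ^ k) := by
    calc (N : ℝ) ^ k * (1 - x) ^ (N - k) ≤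
          Real.exp (k * (3 * k + 5)) * Real.exp (-(31 * 2 ^ k)) :=
          mul_le_mul h4 h3 (pow_nonneg (by linarith) _) (Real.exp_pos _).le
      _ = _ := by rw [← Real.exp_add]; ring_nf
  have h8 : ((k : ℝ) * (3 * k + 5) - 31 * 2 ^ k) < 0 := by
    have : ((k * (3 * k + 5) : ℕ) : ℝ) < ((31 * 2 ^ k : ℕ) : ℝ) := by exact_mod_cast num k
    push_cast at this
    linarith
  have h9 : Real.exp (k * (3 * k + 5) - 31 * 2 ^ k) < 1 := by
    rw [← Real.exp_zero]
    exact Real.exp_lt_exp.2 h8
  linarith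

end Pool.Agent.H85.PC.Tour
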