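import Mathlib
import Pool.Graph.R_seed8.TH364.Pierce
import Pool.Graph.R_seed8.Results.MP_7268ce_co.GrowthRateTwo

/-!
# From a labelled family to the limit `p(d, k)`
-/

set_option autoImplicit false

namespace Pool.Agent.H85.PC

open Finset Filter Topology
open Pool.Agent.TH364.Pierce (HasFam family_of_gadget exists_partition)
open Pool.Agent.Results.MP_7268ce_co.GrowthRateTwo (Good pBox limit_of_good)

/-- Fewer coordinates. -/
theorem HasFam.restrict {C C' : Type} [DecidableEq C] [DecidableEq C'] (e : C ↪ C') {M : ℕ}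
    (h : HasFam C' M) : HasFam C M := by
  classical
  obtain ⟨A, J, _, _, _, _, lab, sym, side, h1, h2, h3, h4, h5⟩ := h
  let a0 : A := Classical.arbitrary A
  let J' := {j : J // (∃ c, e c = lab j) ∧ ∀ l', (¬ ∃ c, e c = l') → a0 ∈ side j l'}
  let lab' : J' → C := fun j => j.2.1.choose
  have hlab : ∀ j : J', e (lab' j) = lab j.1 := fun j => j.2.1.choose_spec
  have hext : ∀ (x : C → A) (c : C), Function.extend e x (fun _ => a0) (e c) = x c :=
    fun x c => e.injective.extend_apply _ _ _
  have hext' : ∀ (x : C → A) (l' : C'), (¬ ∃ c, e c = l') →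
      Function.extend e x (fun _ => a0) l' = a0 :=
    fun x l' hl => Function.extend_apply' _ _ _ hl
  refine ⟨A, J', inferInstance, inferInstance, inferInstance, inferInstance, lab',
    fun j => sym j.1, fun j l => side j.1 (e l), ?_, ?_, ?_, ?_,
    (Fintype.card_subtype_le _).trans h5⟩
  · intro j l
    exact h1 _ _
  · intro j a ha
    apply h2
    rw [← hlab]
    exact ha
  · intro j j' hne x hx hx'
    refine h3 j.1 j'.1 (fun h => hne (Subtype.ext h)) (Function.extend e x (fun _ => a0)) ?_ ?_
    · intro l'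
      by_cases hl : ∃ c, e c = l'
      · obtain ⟨c, rfl⟩ := hl
        rw [hext]; exact hx c
      · rw [hext' x l' hl]; exact j.2.2 l' hl
    · intro l'
      by_cases hl : ∃ c, e c = l'
      · obtain ⟨c, rfl⟩ := hl
        rw [hext]; exact hx' c
      · rw [hext' x l' hl]; exact j'.2.2 l' hl
  · intro c x
    obtain ⟨j, hj, hl⟩ := h4 (e c) (Function.extend e x (fun _ => a0))
    refine ⟨⟨j, ⟨c, hj.symm⟩, ?_⟩, ?_, ?_⟩
    · intro l' hl'
      have := hl l'
      rw [Function.update_of_ne (fun h => hl' ⟨c, h.symm⟩), hext' x l' hl'] at this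
      exact this
    · apply e.injective
      rw [hlab]
      exact hj
    · intro l
      have := hl (e l)
      by_cases h : l = c
      · subst h
        rw [Function.update_self] at this ⊢
        exact this
      · rw [Function.update_of_ne (fun h' => h (e.injective h')), hext] at this
        rw [Function.update_of_ne h]
        exact this

theorem HasFam.mono {C : Type} [DecidableEq C] {M M' : ℕ} (hM : M ≤ M') (h : HasFam C M) :
    HasFam C M' := by
  obtain ⟨A, J, i1, i2, i3, i4, lab, sym, side, h1, h2, h3, h4, h5⟩ := h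
  exact ⟨A, J, i1, i2, i3, i4, lab, sym, side, h1, h2, h3, h4, h5.trans hM⟩

/-- The limit `p(d, k)` exists and is at most `M k + R` for a constant `R`. -/
theorem limit_of_fam {d M : ℕ} (h : HasFam (Fin d) M) :
    ∃ R : ℝ, ∀ k : ℕ, 1 ≤ k → ∃ L : ℝ,
      Tendsto (fun n : ℕ => (pBox n d k : ℝ)) atTop (𝓝 L) ∧ L ≤ M * k + R := by
  classical
  obtain ⟨A, J, _, _, _, _, lab, sym, side, h1, h2, h3, h4, h5⟩ := h
  refine ⟨(Fintype.card A : ℝ) ^ d, fun k hk => ?_⟩
  obtain ⟨P, hP1, hP2, hP3, hP4⟩ := exists_partition (C := Fin d) (A := A) (J := J)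
    (V := A × Fin k) k lab sym side h1 h3 h4 (by omega) (fun v => v.1) (fun v => v.2)
    (fun a t => ⟨(a, t), rfl, rfl⟩)
  choose F hF1 hF2 using hP2
  have hgood : Good (A × Fin k) d k (Fintype.card J * k + Fintype.card A ^ Fintype.card (Fin d)) := by
    refine ⟨{B // B ∈ P}, inferInstance, fun x => ⟨F x, (hF1 x).1⟩, ?_, ?_, ?_⟩
    · intro x y i hxy
      have hxy' : F x = F y := congrArg Subtype.val hxy
      apply Subtype.ext
      show F (Function.update x i (y i)) = F x
      refine ((hF2 _) (F x) ⟨(hF1 x).1, ?_⟩).symm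
      intro j
      by_cases hj : j = i
      · subst hj
        rw [Function.update_self, hxy']
        exact (hF1 y).2 j
      · rw [Function.update_of_ne hj]
        exact (hF1 x).2 j
    · intro i c
      refine (hP3 i c).trans ?_
      have hsub : Set.ncard (((P.filter (fun B => ∃ t : A × Fin k, ∀ j : Fin d,
          Function.update c i t j ∈ B j)) : Finset _) : Set (Fin d → Finset (A × Fin k))) ≤
          ((fun x : Fin d → A × Fin k => (⟨F x, (hF1 x).1⟩ : {B // B ∈ P})) ''
            {x | ∀ j, j ≠ i → x j = c j}).ncard := by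
        rw [← Set.ncard_image_of_injective
          ((fun x : Fin d → A × Fin k => (⟨F x, (hF1 x).1⟩ : {B // B ∈ P})) ''
            {x | ∀ j, j ≠ i → x j = c j}) Subtype.val_injective]
        refine Set.ncard_le_ncard ?_ (Set.toFinite _)
        intro B hB
        rw [Finset.mem_coe, Finset.mem_filter] at hB
        obtain ⟨hB1, t, ht⟩ := hB
        refine ⟨⟨F (Function.update c i t), (hF1 _).1⟩, ⟨Function.update c i t, ?_, rfl⟩, ?_⟩
        · intro j hj
          exact Function.update_of_ne hj _ _
        · exact ((hF2 _) B ⟨hB1, ht⟩).symm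
      rw [Set.ncard_coe_finset] at hsub
      refine le_trans (le_of_eq ?_) hsub
      congr!
    · refine le_trans (Set.ncard_le_ncard (Set.subset_univ _) (Set.toFinite _)) ?_
      rw [Set.ncard_univ, Nat.card_eq_fintype_card, Fintype.card_coe]
      exact hP4
  have : Nonempty (Fin k) := ⟨⟨0, by omega⟩⟩
  obtain ⟨L, hL1, hL2⟩ := limit_of_good hgood
  refine ⟨L, hL1, hL2.trans ?_⟩
  rw [Fintype.card_fin]
  push_cast
  have h6 : (Fintype.card J : ℝ) ≤ M := by exact_mod_cast h5
  have h7 : (Fintype.card J : ℝ) * k ≤ M * k := mul_le_mul_of_nonneg_right h6 (by positivity)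
  linarith

end Pool.Agent.H85.PC
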