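import Mathlib
import Pool.Agent.H85.PC.Tour
import Pool.Agent.H85.PC.Upper

/-!
# The leader election gadget with short symbols

The gadget of the library module `S08592` with the classes in a set of `2 ^ (3 k + 5)` elements
instead of `(ZMod p) ^ k`: a base symbol has `O(q ^ 2)` bits for a group of `q` cells.
-/

set_option autoImplicit false

namespace Pool.Agent.H85.PC.Gadget

open Finset
open Pool.Agent.S08592 (hash hash_coll dominating Ev)
open Pool.Agent.TH364.Pierce (HasFam family_of_gadget)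

variable {V : Type} {k p q r n : ℕ}

/-- the classes dominated by a base symbol -/
def Im (R : V → V → Prop) (b : V × (Fin k → V)) (z : V) : Prop := (∃ m, b.2 m = z) ∧ R b.1 z

def dom (R : V → V → Prop) (b b' : V × (Fin k → V)) : Prop := Im R b b'.1

theorem dom_antisymm {R : V → V → Prop} (hR : ∀ a b, R a b → R b a → False)
    (b b' : V × (Fin k → V)) : dom R b b' → dom R b' b → False := fun h1 h2 => hR _ _ h1.2 h2.2

theorem dom_exists [DecidableEq V] {R : V → V → Prop}
    (hS : ∀ T : Finset V, T.card ≤ k → ∃ c, ∀ z ∈ T, R c z)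
    (w : Fin (k + 1) → V × (Fin k → V)) (i : Fin (k + 1)) : ∃ b, ∀ t, t ≠ i → dom R b (w t) := by
  classical
  obtain ⟨c, hc⟩ := hS (Finset.univ.image (fun m : Fin k => (w (i.succAbove m)).1))
    (by
      refine Finset.card_image_le.trans ?_
      simp)
  refine ⟨(c, fun m => (w (i.succAbove m)).1), ?_⟩
  intro t ht
  obtain ⟨m, hm⟩ := Fin.exists_succAbove_eq ht
  refine ⟨⟨m, ?_⟩, ?_⟩
  · show (w (i.succAbove m)).1 = (w t).1
    rw [hm]
  · apply hc
    rw [Finset.mem_image]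
    exact ⟨m, Finset.mem_univ _, by rw [hm]⟩

def side (R : V → V → Prop) (φ : V → (Fin n → ZMod p)) (D : Ev p q r) (t : Fin q)
    (b : V × (Fin k → V)) : Prop :=
  (∀ m, (D.2.1 m).1 = t → hash D.1 (φ b.1) = (D.2.1 m).2) ∧
  (t = D.2.2 ∨ ∃ m, (D.2.1 m).1 ≠ t ∧ ∀ z, Im R b z → hash D.1 (φ z) ≠ (D.2.1 m).2)

theorem side_leader (R : V → V → Prop) (φ : V → (Fin n → ZMod p)) (D : Ev p q r)
    (w : Fin q → V × (Fin k → V)) (hw : ∀ t, side R φ D t (w t)) (j : Fin q)
    (hj : ∀ t, t ≠ j → dom R (w j) (w t)) : j = D.2.2 := by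
  rcases (hw j).2 with h | ⟨m, hm1, hm2⟩
  · exact h
  · exfalso
    have h1 := (hw (D.2.1 m).1).1 m rfl
    exact hm2 _ (hj _ hm1) h1

theorem side_exists [Fact p.Prime] (R : V → V → Prop)
    (hR : ∀ a b, R a b → R b a → False) (φ : V → (Fin n → ZMod p)) (hφ : Function.Injective φ)
    (hq : 1 ≤ q) (hqr : q < 2 ^ r) (hpq : (q * q * k) * n < p) (w : Fin q → V × (Fin k → V)) :
    ∃ D : Ev p q r, ∀ t, side R φ D t (w t) := by
  classical
  -- domination
  obtain ⟨L, i0, -, -, hL⟩ := dominating (fun t j : Fin q => ¬ Im R (w j) (w t).1)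
    (by
      intro t j _
      by_contra hcon
      push Not at hcon
      exact dom_antisymm hR (w t) (w j) hcon.2 hcon.1) r Finset.univ
    ⟨⟨0, by omega⟩, Finset.mem_univ _⟩ (by simpa using hqr)
  -- hash point
  let F : Fin q × Fin q × Fin k → Finset (ZMod p) := fun x =>
    if (w x.1).1 = (w x.2.1).2 x.2.2 then ∅ else
      Finset.univ.filter (fun y : ZMod p => hash y (φ (w x.1).1) = hash y (φ ((w x.2.1).2 x.2.2)))
  have hF : ∀ x, (F x).card ≤ n := by
    intro x
    simp only [F]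
    split_ifs with h
    · simp
    · exact hash_coll _ _ (fun e => h (hφ e))
  obtain ⟨y, hy⟩ : ∃ y : ZMod p, y ∉ Finset.univ.biUnion F := by
    by_contra hcon
    push Not at hcon
    have h1 : (Finset.univ.biUnion F) = Finset.univ := Finset.eq_univ_iff_forall.mpr hcon
    have h2 : (Finset.univ.biUnion F).card ≤ ∑ x : Fin q × Fin q × Fin k, (F x).card :=
      Finset.card_biUnion_le
    have h3 : ∑ x : Fin q × Fin q × Fin k, (F x).card ≤ ∑ x : Fin q × Fin q × Fin k, n :=
      Finset.sum_le_sum (fun x _ => hF x)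
    have h4 : ∑ x : Fin q × Fin q × Fin k, n = (q * q * k) * n := by
      rw [Finset.sum_const, Finset.card_univ]
      simp only [Fintype.card_prod, Fintype.card_fin, smul_eq_mul]
      ring
    rw [h1, Finset.card_univ, ZMod.card] at h2
    omega
  have hy' : ∀ (t j : Fin q) (z : V), Im R (w j) z → (w t).1 ≠ z →
      hash y (φ (w t).1) ≠ hash y (φ z) := by
    intro t j z hz hne h
    obtain ⟨m, hm⟩ := hz.1
    apply hy
    rw [Finset.mem_biUnion]
    refine ⟨(t, j, m), Finset.mem_univ _, ?_⟩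
    simp only [F]
    rw [if_neg (by rw [hm]; exact hne), Finset.mem_filter, hm]
    exact ⟨Finset.mem_univ _, h⟩
  refine ⟨(y, (fun m => (L m, hash y (φ (w (L m)).1))), i0), ?_⟩
  intro t
  refine ⟨?_, ?_⟩
  · intro m hm
    have hm' : L m = t := hm
    show hash y (φ (w t).1) = hash y (φ (w (L m)).1)
    rw [hm']
  · by_cases ht : t = i0
    · left; exact ht
    · right
      obtain ⟨m, hm1, hm2⟩ := hL t (Finset.mem_univ _) ht
      refine ⟨m, hm1, ?_⟩
      intro z hz h
      refine hy' (L m) t z hz ?_ h.symm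
      intro h'
      apply hm2
      rw [h']
      exact hz

/-- The gadget with groups of `q` cells, in every dimension `d ≤ G q`. -/
theorem fam_gadget (d q G r b : ℕ) (hq : 2 ≤ q) (hG : 1 ≤ G) (hd : d ≤ G * q) (hr : q < 2 ^ r)
    (hb : G * q ≤ 2 ^ b) :
    HasFam (Fin d) (2 ^ (4 * q ^ 2 + 3 * b * G + 16 * r ^ 2 * G)) := by
  classical
  obtain ⟨p, hpr, hp1, hp2⟩ := Nat.exists_prime_lt_and_le_two_mul (4 * q ^ 4) (by positivity)
  have : Fact p.Prime := ⟨hpr⟩
  obtain ⟨k, rfl⟩ : ∃ k, q = k + 1 := ⟨q - 1, by omega⟩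
  have hk1 : 1 ≤ k := by omega
  have hr1 : 1 ≤ r := by
    rcases Nat.eq_zero_or_pos r with h | h
    · subst h; omega
    · exact h
  have hb1 : 1 ≤ b := by
    rcases Nat.eq_zero_or_pos b with h | h
    · subst h
      have : 2 ≤ G * (k + 1) := le_trans hq (Nat.le_mul_of_pos_left _ (by omega))
      omega
    · exact h
  have hk4 : 3 * k + 5 ≤ 4 * (k + 1) := by omega
  have hpk : ((k + 1) * (k + 1) * k) * (3 * k + 5) < p := by
    refine lt_of_le_of_lt ?_ hp1
    calc (k + 1) * (k + 1) * k * (3 * k + 5) ≤ (k + 1) * (k + 1) * (k + 1) * (4 * (k + 1)) :=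
          Nat.mul_le_mul (Nat.mul_le_mul_left _ (by omega)) hk4
      _ = 4 * (k + 1) ^ 4 := by ring
  obtain ⟨R, hR, hS⟩ := Tour.exists_schutte k
  obtain ⟨φ, hφ⟩ : ∃ φ : Fin (2 ^ (3 * k + 5)) → (Fin (3 * k + 5) → ZMod p),
      Function.Injective φ := by
    have hc : Fintype.card (Fin (2 ^ (3 * k + 5))) ≤ Fintype.card (Fin (3 * k + 5) → ZMod p) := by
      rw [Fintype.card_fin, Fintype.card_fun, ZMod.card, Fintype.card_fin]
      exact Nat.pow_le_pow_left hpr.two_le _
    obtain ⟨e⟩ := Function.Embedding.nonempty_of_card_le hc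
    exact ⟨e, e.injective⟩
  have : Nonempty (Fin (2 ^ (3 * k + 5))) := ⟨⟨0, by positivity⟩⟩
  have : Nonempty (Ev p (k + 1) r) := ⟨(0, fun _ => (0, 0), 0)⟩
  have key := family_of_gadget
    (Base := Fin (2 ^ (3 * k + 5)) × (Fin k → Fin (2 ^ (3 * k + 5))))
    (Ev := Ev p (k + 1) r) (k + 1) G (G * (k + 1)) hq hG le_rfl
    (dom R) (dom_antisymm hR) (dom_exists hS)
    (side R φ) (fun D => D.2.2) (side_leader R φ)
    (side_exists R hR φ hφ (by omega) hr hpk)
  have hcard : Fintype.card (Fin d) ≤ Fintype.card (Fin G × Fin (k + 1)) := by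
    simpa using hd
  obtain ⟨e⟩ := Function.Embedding.nonempty_of_card_le hcard
  refine HasFam.mono ?_ (HasFam.restrict e key)
  simp only [Ev, Fintype.card_prod, Fintype.card_fun, Fintype.card_fin, ZMod.card]
  have hp2' : p ≤ 2 ^ (4 * r + 3) := by
    calc p ≤ 2 * (4 * (k + 1) ^ 4) := hp2
      _ ≤ 2 * (4 * (2 ^ r) ^ 4) :=
          Nat.mul_le_mul_left _ (Nat.mul_le_mul_left _ (Nat.pow_le_pow_left hr.le 4))
      _ = 2 ^ (4 * r + 3) := by rw [← pow_mul, pow_add, Nat.mul_comm r 4]; ring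
  have hq2 : k + 1 ≤ 2 ^ r := hr.le
  calc G * (k + 1) * (2 ^ (3 * k + 5) * (2 ^ (3 * k + 5)) ^ k * (G * (k + 1) *
        ((G * (k + 1)) ^ G * (p * (((k + 1) * p) ^ r * (k + 1))) ^ G)))
      ≤ 2 ^ b * (2 ^ (3 * k + 5) * (2 ^ (3 * k + 5)) ^ k * (2 ^ b * ((2 ^ b) ^ G *
        (2 ^ (4 * r + 3) * ((2 ^ r * 2 ^ (4 * r + 3)) ^ r * 2 ^ r)) ^ G))) := by
          gcongr
    _ = 2 ^ (b + (((3 * k + 5) + (3 * k + 5) * k) + (b + (b * G +
        ((4 * r + 3) + ((r + (4 * r + 3)) * r + r)) * G)))) := by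
          simp only [← pow_mul, ← pow_add]
    _ ≤ _ := by
          apply Nat.pow_le_pow_right (by norm_num)
          have e1 : (3 * k + 5) + (3 * k + 5) * k ≤ 4 * (k + 1) ^ 2 := by
            calc (3 * k + 5) + (3 * k + 5) * k = (3 * k + 5) * (k + 1) := by ring
              _ ≤ (4 * (k + 1)) * (k + 1) := Nat.mul_le_mul_right _ hk4
              _ = _ := by ring
          have e2 : b + b + b * G ≤ 3 * b * G := by nlinarith
          have e3 : ((4 * r + 3) + ((r + (4 * r + 3)) * r + r)) * G ≤ 16 * r ^ 2 * G := by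
            apply Nat.mul_le_mul_right
            nlinarith
          omega

end Pool.Agent.H85.PC.Gadget
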