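import Mathlib
import Pool.Agent.H85.PC.Gadget

/-!
# The choice of the parameters
-/

set_option autoImplicit false

namespace Pool.Agent.H85.PC

open Pool.Agent.TH364.Pierce (HasFam)

/-- the exponent, in terms of a real number `X` with `X ^ 3 = d a ^ 2` -/
theorem exists_params (d : ℕ) (hd : 1 ≤ d) (a : ℕ) (ha1 : 1 ≤ a) (ha : d < 2 ^ a) (had : a ≤ d)
    (X : ℝ) (hX0 : 0 < X) (hX : X ^ 3 = d * a ^ 2) (hXa : a ^ 2 ≤ X ^ 2) :
    ∃ e : ℕ, HasFam (Fin d) (2 ^ e) ∧ (e : ℝ) ≤ 400 * X ^ 2 := by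
  classical
  have hex : ∃ q : ℕ, 2 ≤ q ∧ d * a ^ 2 ≤ q ^ 3 := by
    refine ⟨d * a ^ 2 + 2, by omega, ?_⟩
    calc d * a ^ 2 ≤ (d * a ^ 2 + 2) ^ 1 := by rw [pow_one]; omega
      _ ≤ (d * a ^ 2 + 2) ^ 3 := Nat.pow_le_pow_right (by omega) (by norm_num)
  set q := Nat.find hex with hq
  have hq2 : 2 ≤ q := (Nat.find_spec hex).1
  have hq3 : d * a ^ 2 ≤ q ^ 3 := (Nat.find_spec hex).2
  have hqX : X ≤ q := by
    have h1 : X ^ 3 ≤ (q : ℝ) ^ 3 := by
      rw [hX]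
      exact_mod_cast hq3
    exact le_of_pow_le_pow_left₀ (by norm_num) (by positivity) h1
  have hqX2 : (q : ℝ) ≤ X + 2 := by
    by_cases h3 : q = 2
    · rw [h3]
      push_cast
      linarith
    · have h4 := Nat.find_min hex (m := q - 1) (by omega)
      push Not at h4
      have h5 := h4 (by omega)
      have h6 : ((q - 1 : ℕ) : ℝ) ^ 3 < X ^ 3 := by
        rw [hX]
        exact_mod_cast h5
      have h7 : ((q - 1 : ℕ) : ℝ) < X := lt_of_pow_lt_pow_left₀ 3 hX0.le h6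
      rw [Nat.cast_sub (by omega)] at h7
      push_cast at h7
      linarith
  have ha1' : (1 : ℝ) ≤ a := by exact_mod_cast ha1
  have hd1' : (1 : ℝ) ≤ d := by exact_mod_cast hd
  have had' : (a : ℝ) ≤ d := by exact_mod_cast had
  have hX1 : 1 ≤ X := by
    by_contra h
    push Not at h
    have : X ^ 2 < 1 := by nlinarith
    nlinarith
  have hXd : X ≤ d := by
    by_contra h
    push Not at h
    have h1 : (d : ℝ) ^ 3 < X ^ 3 := pow_lt_pow_left₀ h (by linarith) (by norm_num)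
    rw [hX] at h1
    have : (a : ℝ) ^ 2 ≤ (d : ℝ) ^ 2 := by nlinarith
    nlinarith
  have hqd : q ≤ 3 * d := by
    have : (q : ℝ) ≤ 3 * d := by linarith
    exact_mod_cast this
  set G := d / q + 1 with hG
  have hGq : G * q ≤ 4 * d := by
    have h1 : d / q * q ≤ d := Nat.div_mul_le_self d q
    have : G * q = d / q * q + q := by rw [hG]; ring
    omega
  have hdG : d ≤ G * q := by
    have h1 := Nat.lt_div_mul_add (a := d) (b := q) (by omega)
    have : G * q = d / q * q + q := by rw [hG]; ring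
    omega
  have hr : q < 2 ^ (a + 2) := by
    calc q ≤ 3 * d := hqd
      _ < 4 * 2 ^ a := by omega
      _ = 2 ^ (a + 2) := by rw [pow_add]; ring
  have hb : G * q ≤ 2 ^ (a + 2) := by
    calc G * q ≤ 4 * d := hGq
      _ ≤ 4 * 2 ^ a := by omega
      _ = 2 ^ (a + 2) := by rw [pow_add]; ring
  have hG1 : 1 ≤ G := by rw [hG]; exact Nat.succ_le_succ (Nat.zero_le _)
  refine ⟨_, Gadget.fam_gadget d q G (a + 2) (a + 2) hq2 hG1 hdG hr hb, ?_⟩
  have hGX : (G : ℝ) ≤ d / X + 1 := by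
    have h1 : ((d / q : ℕ) : ℝ) ≤ (d : ℝ) / q := Nat.cast_div_le
    have h2 : (d : ℝ) / q ≤ d / X := by
      apply div_le_div_of_nonneg_left (by linarith) hX0 hqX
    rw [hG]
    push_cast
    linarith
  have h3 : (a : ℝ) ^ 2 * (d / X) = X ^ 2 := by
    have : (a : ℝ) ^ 2 * (d / X) = (d * a ^ 2) / X := by ring
    rw [this, ← hX]
    field_simp
  have h4 : (a : ℝ) ^ 2 * G ≤ 2 * X ^ 2 := by
    calc (a : ℝ) ^ 2 * G ≤ a ^ 2 * (d / X + 1) := mul_le_mul_of_nonneg_left hGX (by positivity)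
      _ = X ^ 2 + a ^ 2 := by rw [mul_add, h3, mul_one]
      _ ≤ _ := by linarith
  have hG0 : (0 : ℝ) ≤ G := by positivity
  have h5 : ((a : ℝ) + 2) ≤ 3 * a := by linarith
  have h6 : ((a : ℝ) + 2) * G ≤ 3 * (a ^ 2 * G) := by
    have : ((a : ℝ) + 2) ≤ 3 * a ^ 2 := by nlinarith
    calc ((a : ℝ) + 2) * G ≤ (3 * a ^ 2) * G := mul_le_mul_of_nonneg_right this hG0
      _ = _ := by ring
  have h7 : ((a : ℝ) + 2) ^ 2 * G ≤ 9 * (a ^ 2 * G) := by
    have : ((a : ℝ) + 2) ^ 2 ≤ 9 * a ^ 2 := by nlinarith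
    calc ((a : ℝ) + 2) ^ 2 * G ≤ (9 * a ^ 2) * G := mul_le_mul_of_nonneg_right this hG0
      _ = _ := by ring
  have h8 : (q : ℝ) ^ 2 ≤ 9 * X ^ 2 := by
    have : (q : ℝ) ≤ 3 * X := by linarith
    nlinarith [show (0 : ℝ) ≤ q by positivity]
  push_cast
  nlinarith

theorem log_bound (d : ℕ) (hd : 1 ≤ d) : ((Nat.log 2 d + 1 : ℕ) : ℝ) ≤ 3 * Real.log (d + 1) := by
  have hd1 : (1 : ℝ) ≤ d := by exact_mod_cast hd
  have hlog2 : 0.6931471803 < Real.log 2 := Real.log_two_gt_d9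
  have h1 : Real.log 2 ≤ Real.log (d + 1) := Real.log_le_log (by norm_num) (by linarith)
  have h2 : (Nat.log 2 d : ℝ) * Real.log 2 ≤ Real.log (d + 1) := by
    rw [← Real.log_pow]
    apply Real.log_le_log (by positivity)
    have : 2 ^ Nat.log 2 d ≤ d := Nat.pow_log_le_self 2 (by omega)
    have h3 : ((2 ^ Nat.log 2 d : ℕ) : ℝ) ≤ d := by exact_mod_cast this
    push_cast at h3
    linarith
  push_cast
  have h4 : (0 : ℝ) ≤ (Nat.log 2 d : ℝ) := by positivity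
  nlinarith

/-- The upper bound for the number of boxes in a labelled family, in every dimension. -/
theorem fam_all (d : ℕ) (hd : 1 ≤ d) : ∃ M : ℕ, HasFam (Fin d) M ∧
    (M : ℝ) ≤ Real.exp (1500 * (d : ℝ) ^ (2 / 3 : ℝ) * Real.log (d + 1) ^ (4 / 3 : ℝ)) := by
  set a := Nat.log 2 d + 1 with ha
  have ha1 : 1 ≤ a := by omega
  have hda : d < 2 ^ a := Nat.lt_pow_succ_log_self (by norm_num) d
  have had : a ≤ d := by
    have := Nat.log_lt_self 2 (x := d) (by omega)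
    omega
  have ha1' : (1 : ℝ) ≤ a := by exact_mod_cast ha1
  have hd1' : (1 : ℝ) ≤ d := by exact_mod_cast hd
  have had' : (a : ℝ) ≤ d := by exact_mod_cast had
  set Y : ℝ := (d : ℝ) * a ^ 2 with hY
  have hY1 : 1 ≤ Y := by
    rw [hY]
    nlinarith
  set X : ℝ := Y ^ (1 / 3 : ℝ) with hX
  have hX0 : 0 < X := Real.rpow_pos_of_pos (by linarith) _
  have hX3 : X ^ 3 = Y := by
    rw [hX, ← Real.rpow_natCast, ← Real.rpow_mul (by linarith)]
    norm_num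
  have hXa : (a : ℝ) ≤ X := by
    by_contra h
    push Not at h
    have h1 : X ^ 3 < (a : ℝ) ^ 3 := pow_lt_pow_left₀ h hX0.le (by norm_num)
    rw [hX3, hY] at h1
    nlinarith [sq_nonneg (a : ℝ)]
  obtain ⟨e, he1, he2⟩ := exists_params d hd a ha1 hda had X hX0 hX3 (by nlinarith)
  refine ⟨2 ^ e, he1, ?_⟩
  have hL := log_bound d hd
  rw [← ha] at hL
  set L := Real.log (d + 1) with hLdef
  have hL0 : 0 < L := Real.log_pos (by linarith)
  have hX2 : X ^ 2 = (d : ℝ) ^ (2 / 3 : ℝ) * (a : ℝ) ^ (4 / 3 : ℝ) := by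
    have h1 : X ^ 2 = Y ^ (2 / 3 : ℝ) := by
      rw [hX, ← Real.rpow_natCast, ← Real.rpow_mul (by linarith)]
      norm_num
    rw [h1, hY, Real.mul_rpow (by positivity) (by positivity), ← Real.rpow_natCast,
      ← Real.rpow_mul (by positivity)]
    norm_num
  have h3 : (3 : ℝ) ^ (4 / 3 : ℝ) ≤ 5 := by
    have h4 : ((3 : ℝ) ^ (4 / 3 : ℝ)) ^ 3 ≤ 5 ^ 3 := by
      rw [← Real.rpow_natCast, ← Real.rpow_mul (by norm_num)]
      norm_num
    exact le_of_pow_le_pow_left₀ (by norm_num) (by norm_num) h4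
  have h5 : (a : ℝ) ^ (4 / 3 : ℝ) ≤ 5 * L ^ (4 / 3 : ℝ) := by
    calc (a : ℝ) ^ (4 / 3 : ℝ) ≤ (3 * L) ^ (4 / 3 : ℝ) :=
          Real.rpow_le_rpow (by linarith) hL (by norm_num)
      _ = (3 : ℝ) ^ (4 / 3 : ℝ) * L ^ (4 / 3 : ℝ) := Real.mul_rpow (by norm_num) hL0.le
      _ ≤ 5 * L ^ (4 / 3 : ℝ) := mul_le_mul_of_nonneg_right h3 (Real.rpow_nonneg hL0.le _)
  have hZ0 : 0 ≤ (d : ℝ) ^ (2 / 3 : ℝ) * L ^ (4 / 3 : ℝ) :=
    mul_nonneg (Real.rpow_nonneg (by linarith) _) (Real.rpow_nonneg hL0.le _)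
  have h6 : (e : ℝ) ≤ 2000 * ((d : ℝ) ^ (2 / 3 : ℝ) * L ^ (4 / 3 : ℝ)) := by
    calc (e : ℝ) ≤ 400 * X ^ 2 := he2
      _ = 400 * ((d : ℝ) ^ (2 / 3 : ℝ) * (a : ℝ) ^ (4 / 3 : ℝ)) := by rw [hX2]
      _ ≤ 400 * ((d : ℝ) ^ (2 / 3 : ℝ) * (5 * L ^ (4 / 3 : ℝ))) := by
          apply mul_le_mul_of_nonneg_left _ (by norm_num)
          exact mul_le_mul_of_nonneg_left h5 (Real.rpow_nonneg (by linarith) _)
      _ = _ := by ring
  have hlog2 : Real.log 2 < 0.6931471808 := Real.log_two_lt_d9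
  have hlog2' : 0 < Real.log 2 := Real.log_pos (by norm_num)
  push_cast
  calc (2 : ℝ) ^ e = Real.exp (Real.log 2 * e) := by
        rw [Real.exp_mul, Real.exp_log (by norm_num), Real.rpow_natCast]
    _ ≤ _ := by
        apply Real.exp_le_exp.2
        have : (0 : ℝ) ≤ e := by positivity
        nlinarith

end Pool.Agent.H85.PC
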