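import Mathlib
import Pool.Graph.R_seed8.Results.MP_7268ce_co.GrowthRateTwo

/-!
# The lower bound for the number of boxes in a `k`-piercing partition

`|P| - 1 ≥ (k - 1) exp (√(2 d + 2) - 2)`.  Proof by induction on `d`. Let `M` be the number of boxes
and let all the slices `x i = t` meet at least `μ` of them. In the direction `i` a box `B` is disjoint
from at most `M - μ` boxes, because those do not meet the slice `x i = t` for a `t ∈ B i`; and the at
most `M - μ` boxes which do not meet one fixed slice `x i = t₀` cover all pairs of boxes which are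
disjoint in the direction `i`. So there are at most `(M - μ)²` such pairs, and
`M (M - 1) / 2 ≤ d (M - μ)²`.
-/

set_option autoImplicit false

namespace Pool.Agent.H85.PC

open Finset

/-- Pairwise disjoint boxes `B b`, `b ∈ ι`, in `α^d`, every line meets at least `k` of them. -/
structure Part (ι α : Type) (d k : ℕ) (B : ι → Fin d → Set α) : Prop where
  ne : ∀ b i, (B b i).Nonempty
  dis : ∀ b b', (∀ i, (B b i ∩ B b' i).Nonempty) → b = b'
  line : ∀ (i : Fin d) (c : Fin d → α), ∃ T : Finset ι, k ≤ T.card ∧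
    ∀ b ∈ T, ∃ t, ∀ j, Function.update c i t j ∈ B b j

theorem Part.slice {ι α : Type} {d k : ℕ} {B : ι → Fin (d + 1) → Set α}
    (h : Part ι α (d + 1) k B) (i : Fin (d + 1)) (t : α) :
    Part {b // t ∈ B b i} α d k (fun b j => B b.1 (i.succAbove j)) := by
  classical
  refine ⟨fun b j => h.ne _ _, ?_, ?_⟩
  · intro b b' hb
    apply Subtype.ext
    apply h.dis
    intro l
    rcases Fin.eq_self_or_eq_succAbove i l with rfl | ⟨j, rfl⟩
    · exact ⟨t, b.2, b'.2⟩
    · exact hb j
  · intro j c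
    obtain ⟨T, hT, hT2⟩ := h.line (i.succAbove j) (i.insertNth t c)
    refine ⟨T.subtype (fun b => t ∈ B b i), ?_, ?_⟩
    · rw [Finset.card_subtype, Finset.filter_true_of_mem]
      · exact hT
      · intro b hb
        obtain ⟨s, hs⟩ := hT2 b hb
        have := hs i
        rwa [Function.update_of_ne (Fin.succAbove_ne i j).symm, Fin.insertNth_apply_same] at this
    · intro b hb
      rw [Finset.mem_subtype] at hb
      obtain ⟨s, hs⟩ := hT2 b.1 hb
      refine ⟨s, fun l => ?_⟩
      have := hs (i.succAbove l)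
      by_cases hl : l = j
      · subst hl
        rwa [Function.update_self] at this ⊢
      · rw [Function.update_of_ne hl]
        rwa [Function.update_of_ne (fun e => hl (Fin.succAbove_right_injective e)),
          Fin.insertNth_apply_succAbove] at this

theorem pairs_le {ι : Type} [Fintype ι] (R : ι → ι → Prop) (hR : ∀ a b, R a b → R b a)
    (N : Finset ι) (D : ℝ) (hN : (N.card : ℝ) ≤ D)
    (hcov : ∀ a b, R a b → a ∈ N ∨ b ∈ N)
    (hdeg : ∀ a, ∃ T : Finset ι, (T.card : ℝ) ≤ D ∧ ∀ b, R a b → b ∈ T) :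
    ∃ S : Finset (ι × ι), (∀ p, R p.1 p.2 → p ∈ S) ∧ (S.card : ℝ) ≤ 2 * D ^ 2 := by
  classical
  choose T hT1 hT2 using hdeg
  have hD : 0 ≤ D := le_trans (by positivity) hN
  set S1 : Finset (ι × ι) := N.biUnion fun a => (T a).image fun b => (a, b)
  have h1 : (S1.card : ℝ) ≤ D ^ 2 := by
    have h2 : S1.card ≤ ∑ a ∈ N, (T a).card :=
      Finset.card_biUnion_le.trans (Finset.sum_le_sum fun a _ => Finset.card_image_le)
    calc (S1.card : ℝ) ≤ ((∑ a ∈ N, (T a).card : ℕ) : ℝ) := by exact_mod_cast h2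
      _ = ∑ a ∈ N, ((T a).card : ℝ) := by push_cast; rfl
      _ ≤ ∑ a ∈ N, D := Finset.sum_le_sum fun a _ => hT1 a
      _ = N.card * D := by rw [Finset.sum_const, nsmul_eq_mul]
      _ ≤ D * D := mul_le_mul_of_nonneg_right hN hD
      _ = D ^ 2 := by ring
  refine ⟨S1 ∪ S1.image Prod.swap, ?_, ?_⟩
  · rintro ⟨a, b⟩ hab
    rw [Finset.mem_union]
    rcases hcov a b hab with ha | hb
    · left
      exact Finset.mem_biUnion.2 ⟨a, ha, Finset.mem_image.2 ⟨b, hT2 a b hab, rfl⟩⟩
    · right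
      exact Finset.mem_image.2 ⟨(b, a), Finset.mem_biUnion.2
        ⟨b, hb, Finset.mem_image.2 ⟨a, hT2 b a (hR a b hab), rfl⟩⟩, rfl⟩
  · have h3 : (S1 ∪ S1.image Prod.swap).card ≤ S1.card + S1.card :=
      (Finset.card_union_le _ _).trans (Nat.add_le_add_left Finset.card_image_le _)
    have h4 : ((S1 ∪ S1.image Prod.swap).card : ℝ) ≤ S1.card + S1.card := by exact_mod_cast h3
    linarith

/-- the recursion, `μ` boxes in every slice -/
theorem Part.step {ι α : Type} [Fintype ι] [Nonempty ι] [Nonempty α] {d k : ℕ}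
    {B : ι → Fin d → Set α}
    (h : Part ι α d k B) (μ : ℝ)
    (hμ : ∀ (i : Fin d) (t : α), ∃ T : Finset ι, μ ≤ T.card ∧ ∀ b ∈ T, t ∈ B b i) :
    ((Fintype.card ι : ℝ) - 1) ^ 2 ≤ 2 * d * (Fintype.card ι - μ) ^ 2 := by
  classical
  set M : ℝ := (Fintype.card ι : ℝ) with hM
  have hM1 : 1 ≤ M := by
    rw [hM]
    exact_mod_cast Fintype.card_pos (α := ι)
  have hout : ∀ (i : Fin d) (t : α), ∃ N : Finset ι, (N.card : ℝ) ≤ M - μ ∧
      ∀ b, t ∉ B b i → b ∈ N := by
    intro i t
    obtain ⟨T, hT, hT2⟩ := hμ i t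
    refine ⟨Tᶜ, ?_, ?_⟩
    · rw [Finset.card_compl, Nat.cast_sub (Finset.card_le_univ _)]
      linarith
    · intro b hb
      rw [Finset.mem_compl]
      exact fun h => hb (hT2 b h)
  have hpair : ∀ i : Fin d, ∃ S : Finset (ι × ι),
      (∀ p : ι × ι, ¬ (B p.1 i ∩ B p.2 i).Nonempty → p ∈ S) ∧ (S.card : ℝ) ≤ 2 * (M - μ) ^ 2 := by
    intro i
    obtain ⟨N, hN, hN2⟩ := hout i (Classical.arbitrary α)
    refine pairs_le (fun a b => ¬ (B a i ∩ B b i).Nonempty) ?_ N (M - μ) hN ?_ ?_
    · intro a b hab h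
      exact hab (by rwa [Set.inter_comm])
    · intro a b hab
      by_contra hcon
      push Not at hcon
      have ha : Classical.arbitrary α ∈ B a i := by
        by_contra h; exact hcon.1 (hN2 a h)
      have hb : Classical.arbitrary α ∈ B b i := by
        by_contra h; exact hcon.2 (hN2 b h)
      exact hab ⟨_, ha, hb⟩
    · intro a
      obtain ⟨t, ht⟩ := h.ne a i
      obtain ⟨N', hN', hN'2⟩ := hout i t
      exact ⟨N', hN', fun b hab => hN'2 b fun hb => hab ⟨t, ht, hb⟩⟩
  choose S hS1 hS2 using hpair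
  have hoff : (Finset.univ : Finset ι).offDiag ⊆ Finset.univ.biUnion S := by
    intro p hp
    have hne := (Finset.mem_offDiag.1 hp).2.2
    by_contra hcon
    apply hne
    apply h.dis
    intro i
    by_contra hi
    exact hcon (Finset.mem_biUnion.2 ⟨i, Finset.mem_univ _, hS1 i p hi⟩)
  have h1 : ((Finset.univ : Finset ι).offDiag.card : ℝ) ≤ d * (2 * (M - μ) ^ 2) := by
    have h2 : ((Finset.univ : Finset ι).offDiag).card ≤ ∑ i : Fin d, (S i).card :=
      (Finset.card_le_card hoff).trans Finset.card_biUnion_le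
    calc ((Finset.univ : Finset ι).offDiag.card : ℝ) ≤ ((∑ i : Fin d, (S i).card : ℕ) : ℝ) := by
          exact_mod_cast h2
      _ = ∑ i : Fin d, ((S i).card : ℝ) := by push_cast; rfl
      _ ≤ ∑ i : Fin d, 2 * (M - μ) ^ 2 := Finset.sum_le_sum fun i _ => hS2 i
      _ = d * (2 * (M - μ) ^ 2) := by
          rw [Finset.sum_const, Finset.card_univ, Fintype.card_fin, nsmul_eq_mul]
  have h3 : ((Finset.univ : Finset ι).offDiag.card : ℝ) = M * (M - 1) := by
    rw [Finset.offDiag_card, Finset.card_univ, Nat.cast_sub (Nat.le_mul_self _)]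
    push_cast
    rw [hM]
    ring
  rw [h3] at h1
  nlinarith

theorem exp_step (d : ℝ) (hd : 1 ≤ d) :
    Real.exp (√(2 * d + 2) - 2) * (1 - 1 / √(2 * d)) ≤ Real.exp (√(2 * d) - 2) := by
  set s := √(2 * d) with hs
  set s' := √(2 * d + 2) with hs'
  have h1 : s ^ 2 = 2 * d := Real.sq_sqrt (by linarith)
  have h2 : s' ^ 2 = 2 * d + 2 := Real.sq_sqrt (by linarith)
  have hs0 : 0 < s := Real.sqrt_pos.2 (by linarith)
  have hss : s ≤ s' := Real.sqrt_le_sqrt (by linarith)
  have h3 : s' - s ≤ 1 / s := by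
    rw [le_div_iff₀ hs0]
    nlinarith
  have h4 : 1 - 1 / s ≤ Real.exp (-(1 / s)) := by
    have := Real.add_one_le_exp (-(1 / s))
    linarith
  calc Real.exp (s' - 2) * (1 - 1 / s) ≤ Real.exp (s' - 2) * Real.exp (-(1 / s)) :=
        mul_le_mul_of_nonneg_left h4 (Real.exp_pos _).le
    _ = Real.exp (s' - 2 - 1 / s) := by rw [← Real.exp_add]; ring_nf
    _ ≤ Real.exp (s - 2) := Real.exp_le_exp.2 (by linarith)

/-- The lower bound. -/
theorem Part.lower {α : Type} [Nonempty α] {k : ℕ} (hk : 1 ≤ k) (d : ℕ) :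
    ∀ {ι : Type} [Fintype ι] {B : ι → Fin (d + 1) → Set α}, Part ι α (d + 1) k B →
      ((k : ℝ) - 1) * Real.exp (√(2 * (d + 1 : ℕ) + 2) - 2) ≤ Fintype.card ι - 1 := by
  classical
  have hk' : (1 : ℝ) ≤ k := by exact_mod_cast hk
  induction d with
  | zero =>
    intro ι _ B h
    obtain ⟨T, hT, -⟩ := h.line 0 (fun _ => Classical.arbitrary α)
    have h1 : (k : ℝ) ≤ Fintype.card ι := by exact_mod_cast hT.trans (Finset.card_le_univ T)
    have h2 : √(2 * ((0 + 1 : ℕ) : ℝ) + 2) = 2 := by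
      rw [show (2 * ((0 + 1 : ℕ) : ℝ) + 2) = 2 ^ 2 by norm_num]
      exact Real.sqrt_sq (by norm_num)
    rw [h2]
    simp only [sub_self, Real.exp_zero, mul_one]
    linarith
  | succ d ih =>
    intro ι _ B h
    set E := Real.exp (√(2 * (d + 1 : ℕ) + 2) - 2) with hE
    have hE0 : 0 < E := Real.exp_pos _
    have hslice : ∀ (i : Fin (d + 1 + 1)) (t : α), ∃ T : Finset ι,
        (1 + ((k : ℝ) - 1) * E) ≤ T.card ∧ ∀ b ∈ T, t ∈ B b i := by
      intro i t
      refine ⟨Finset.univ.filter (fun b => t ∈ B b i), ?_, ?_⟩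
      · have h1 := ih (h.slice i t)
        rw [Fintype.card_subtype] at h1
        linarith
      · intro b hb
        exact (Finset.mem_filter.1 hb).2
    have hι : Nonempty ι := by
      obtain ⟨T, hT, -⟩ := h.line 0 (fun _ => Classical.arbitrary α)
      obtain ⟨b, -⟩ := Finset.card_pos.1 (lt_of_lt_of_le Nat.zero_lt_one (hk.trans hT))
      exact ⟨b⟩
    have hstep := h.step _ hslice
    set M : ℝ := (Fintype.card ι : ℝ) with hM
    set μ : ℝ := 1 + ((k : ℝ) - 1) * E with hμ
    have hM1 : 1 ≤ M := by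
      rw [hM]
      exact_mod_cast Fintype.card_pos (α := ι)
    have hMμ : μ ≤ M := by
      obtain ⟨T, hT, -⟩ := hslice 0 (Classical.arbitrary α)
      refine hT.trans ?_
      rw [hM]
      exact_mod_cast Finset.card_le_univ T
    set D : ℝ := ((d + 1 + 1 : ℕ) : ℝ) with hD
    have hD1 : 1 ≤ D := by
      rw [hD]
      exact_mod_cast Nat.succ_le_succ (Nat.zero_le _)
    set s := √(2 * D) with hs
    have hs2 : s ^ 2 = 2 * D := Real.sq_sqrt (by linarith)
    have hs0 : 0 < s := Real.sqrt_pos.2 (by linarith)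
    have h5 : M - 1 ≤ s * (M - μ) := by
      refine le_of_sq_le_sq ?_ (mul_nonneg hs0.le (by linarith))
      rw [mul_pow, hs2]
      exact hstep
    have h6 : μ - 1 ≤ (M - 1) * (1 - 1 / s) := by
      have h7 : (M - 1) / s ≤ M - μ := by
        rw [div_le_iff₀ hs0]
        linarith
      have h8 : (M - 1) * (1 - 1 / s) = (M - 1) - (M - 1) / s := by ring
      linarith
    have h9 := exp_step D hD1
    have h10 : √(2 * D) = √(2 * (d + 1 : ℕ) + 2) := by
      congr 1
      rw [hD]
      push_cast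
      ring
    rw [← hs] at h9
    have h11 : Real.exp (s - 2) = E := by rw [hE, ← h10]
    rw [h11] at h9
    set F := Real.exp (√(2 * D + 2) - 2) with hF
    have hs1 : 1 < s := by
      have hD2 : 2 ≤ D := by
        rw [hD]
        have : 2 ≤ d + 1 + 1 := by omega
        exact_mod_cast this
      nlinarith
    have h12 : 0 < 1 - 1 / s := by
      have : 1 / s < 1 := by rw [div_lt_one hs0]; exact hs1
      linarith
    have h13 : ((k : ℝ) - 1) * F * (1 - 1 / s) ≤ (M - 1) * (1 - 1 / s) := by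
      calc ((k : ℝ) - 1) * F * (1 - 1 / s) = ((k : ℝ) - 1) * (F * (1 - 1 / s)) := by ring
        _ ≤ ((k : ℝ) - 1) * E := mul_le_mul_of_nonneg_left h9 (by linarith)
        _ = μ - 1 := by rw [hμ]; ring
        _ ≤ _ := h6
    exact le_of_mul_le_mul_right h13 h12

open Pool.Agent.Results.MP_7268ce_co.GrowthRateTwo (IsBox line IsBoxPartition Piercing pBox
  pBox_attained)

/-- a partition of `[n]^d` gives a system of boxes -/
theorem part_of_partition {n d k : ℕ} (P : Finset (Set (Fin d → Fin n)))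
    (hP : IsBoxPartition P) (hk : Piercing k P) :
    ∃ B : {S // S ∈ P} → Fin d → Set (Fin n), Part {S // S ∈ P} (Fin n) d k B := by
  classical
  choose B hB1 hB2 using fun S : {S // S ∈ P} => hP.1 S.1 S.2
  refine ⟨B, fun b i => hB1 b i, ?_, ?_⟩
  · intro b b' h
    choose x hx hx' using h
    apply Subtype.ext
    refine (hP.2 x).unique ⟨b.2, ?_⟩ ⟨b'.2, ?_⟩
    · rw [hB2 b]; exact hx
    · rw [hB2 b']; exact hx'
  · intro i c
    refine ⟨(P.filter fun S => (S ∩ line i c).Nonempty).subtype (fun S => S ∈ P), ?_, ?_⟩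
    · rw [Finset.card_subtype, Finset.filter_true_of_mem]
      · convert hk i c
      · intro S hS
        exact (Finset.mem_filter.1 hS).1
    · intro b hb
      rw [Finset.mem_subtype, Finset.mem_filter] at hb
      obtain ⟨y, hy1, hy2⟩ := hb.2
      rw [hB2 b] at hy1
      refine ⟨y i, fun j => ?_⟩
      by_cases hj : j = i
      · subst hj
        rw [Function.update_self]
        exact hy1 j
      · rw [Function.update_of_ne hj]
        have : y j = c j := hy2 j hj
        rw [← this]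
        exact hy1 j

/-- The lower bound for `p(n, d, k)`. -/
theorem pBox_lower {n d k : ℕ} (hd : 1 ≤ d) (hk : 1 ≤ k) (hn : k ≤ n) :
    1 + ((k : ℝ) - 1) * Real.exp (√(2 * (d : ℝ) + 2) - 2) ≤ (pBox n d k : ℝ) := by
  classical
  obtain ⟨d, rfl⟩ : ∃ e, d = e + 1 := ⟨d - 1, by omega⟩
  obtain ⟨P, hP, hP1, hP2⟩ := pBox_attained n (d + 1) k hn
  obtain ⟨B, hB⟩ := part_of_partition P hP1 hP2
  have : Nonempty (Fin n) := ⟨⟨0, by omega⟩⟩
  have h1 := hB.lower hk d
  rw [Fintype.card_coe, hP] at h1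
  linarith

end Pool.Agent.H85.PC
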